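import Pool.Agent.Run7.h469.Vp

/-! Conversions of the counts of the starting library. -/

set_option autoImplicit false

namespace Run7.h469.TR

open Finset
open Run7.h469.Vk (Few few_of_ncard)

/-- tuples of natural numbers, all choices of the signs -/
theorem few_of_nat {k : ℕ} {C θ : ℝ} {E : ℕ → Set (Fin k → ℕ)} (hfin : ∀ T : ℕ, 1 ≤ T → (E T).Finite)
    (hE : ∀ T : ℕ, 1 ≤ T → (((E T).ncard : ℕ) : ℝ) ≤ C * (T : ℝ) ^ θ) {W : Set (Fin k → ℤ)}
    (hW : ∀ T : ℕ, 1 ≤ T → ∀ t ∈ W, (∀ i, |t i| ≤ T) → (fun i => (t i).natAbs) ∈ E T) : Few (2 ^ k * C) θ W := by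
  classical
  intro T hT F hF
  have h1 : F.card ≤ ((hfin T hT).toFinset ×ˢ (univ : Finset (Fin k → Bool))).card := by
    apply card_le_card_of_injOn (fun t => (fun i => (t i).natAbs, fun i => decide (0 ≤ t i)))
    · intro t ht
      rw [mem_coe] at ht
      rw [mem_coe, mem_product]
      refine ⟨?_, mem_univ _⟩
      rw [Set.Finite.mem_toFinset]
      exact hW T hT t (hF t ht).1 (hF t ht).2
    · intro t _ t' _ h
      simp only [Prod.mk.injEq] at h
      funext i
      have h2 : (t i).natAbs = (t' i).natAbs := congrFun h.1 i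
      have h3 : decide (0 ≤ t i) = decide (0 ≤ t' i) := congrFun h.2 i
      rw [decide_eq_decide] at h3
      omega
  rw [card_product, card_univ, Fintype.card_fun, Fintype.card_bool, Fintype.card_fin] at h1
  have h2 := hE T hT
  rw [Set.ncard_eq_toFinset_card _ (hfin T hT)] at h2
  calc (F.card : ℝ) ≤ ((((hfin T hT).toFinset).card * 2 ^ k : ℕ) : ℝ) := by exact_mod_cast h1
    _ = ((((hfin T hT).toFinset).card : ℕ) : ℝ) * 2 ^ k := by push_cast; ring
    _ ≤ (C * (T : ℝ) ^ θ) * 2 ^ k := mul_le_mul_of_nonneg_right h2 (by positivity)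
    _ = 2 ^ k * C * (T : ℝ) ^ θ := by ring

theorem few_shrink {k : ℕ} {C c θ : ℝ} {W : Set (Fin k → ℤ)} (hW : Few C (θ - c) W) : Few |C| (θ - min c 1) W := by
  intro T hT F hF
  have hT1 : (1 : ℝ) ≤ T := by exact_mod_cast hT
  refine (hW T hT F hF).trans ?_
  calc C * (T : ℝ) ^ (θ - c) ≤ |C| * (T : ℝ) ^ (θ - c) := mul_le_mul_of_nonneg_right (le_abs_self C) (by positivity)
    _ ≤ |C| * (T : ℝ) ^ (θ - min c 1) := mul_le_mul_of_nonneg_left
        (Real.rpow_le_rpow_of_exponent_le hT1 (by linarith [min_le_left c 1])) (abs_nonneg C)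

theorem few_subset {k : ℕ} {C θ : ℝ} {W W' : Set (Fin k → ℤ)} (h : W' ⊆ W) (hW : Few C θ W) : Few C θ W' :=
  fun T hT F hF => hW T hT F (fun v hv => ⟨h (hF v hv).1, (hF v hv).2⟩)

end Run7.h469.TR
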