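import Pool.Agent.Results.MP_1e27bd_ag.AlmostAllInvariants
import Pool.Agent.Run7.h469.TR.Base

/-! Tuples of integral invariants and the hyperbolic analytic subspace conjecture: the count. -/

set_option autoImplicit false

namespace Run7.h469.TR.P1e27bd

open Run7.h469.Vk (Few)
open Pool.Agent.Results.MP_1e27bd_ag.ModularProducts
open Pool.Agent.Results.MP_1e27bd_ag.AlmostAllInvariants (Exceptional)

theorem few (n k D : ℕ) (hk : 1 ≤ k) : ∃ c : ℝ, 0 < c ∧ c ≤ 1 ∧ ∃ C : ℝ, 0 ≤ C ∧ ∀ o c' : Fin n → ℂ,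
    (∀ i, Special (o i)) → ∀ K : IntermediateField ℚ ℂ, FiniteDimensional ℚ K → Module.finrank ℚ K ≤ D →
      Few C ((k : ℝ) - c) {t : Fin k → ℤ | (∀ i, t i ≠ 0) ∧ Exceptional (K : Set ℂ) o c' t} := by
  obtain ⟨-, e, C, he, hC, h⟩ := Pool.Agent.Results.MP_1e27bd_ag.AlmostAllInvariants.result n k D
  refine ⟨min e 1, lt_min he one_pos, min_le_right _ _, C * (2 * k), by positivity, fun o c' ho K hK hKD => ?_⟩
  intro T hT F hF
  have hT1 : (1 : ℝ) ≤ T := by exact_mod_cast hT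
  have hT0 : (0 : ℝ) < T := by linarith
  have h1 := h o c' ho K hK hKD (fun _ => 0) T hT F (by
    intro t ht
    obtain ⟨⟨h2, h3⟩, h4⟩ := hF t ht
    refine ⟨fun s => ⟨?_, ?_⟩, h3⟩
    · simpa using h2 s
    · simpa using h4 s)
  simp only [Nat.cast_zero, zero_add, Finset.sum_const, Finset.card_univ, Fintype.card_fin, nsmul_eq_mul] at h1
  refine h1.trans ?_
  have h5 : (1 : ℝ) + T / (T : ℝ) ^ e ≤ 2 * (T : ℝ) ^ (1 - min e 1) := by
    have h6 : (T : ℝ) / (T : ℝ) ^ e = (T : ℝ) ^ (1 - e) := by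
      rw [Real.rpow_sub hT0, Real.rpow_one]
    have h7 : (T : ℝ) ^ (1 - e) ≤ (T : ℝ) ^ (1 - min e 1) :=
      Real.rpow_le_rpow_of_exponent_le hT1 (by linarith [min_le_left e 1])
    have h8 : (1 : ℝ) ≤ (T : ℝ) ^ (1 - min e 1) :=
      Real.one_le_rpow hT1 (by linarith [min_le_right e 1])
    rw [h6]
    linarith
  have h9 : (T : ℝ) ^ (k - 1) * (T : ℝ) ^ (1 - min e 1) = (T : ℝ) ^ ((k : ℝ) - min e 1) := by
    rw [← Real.rpow_natCast, ← Real.rpow_add hT0]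
    congr 1
    rw [Nat.cast_sub hk]
    push_cast
    ring
  calc C * (T : ℝ) ^ (k - 1) * ((k : ℝ) * (1 + T / (T : ℝ) ^ e))
      ≤ C * (T : ℝ) ^ (k - 1) * ((k : ℝ) * (2 * (T : ℝ) ^ (1 - min e 1))) := by gcongr
    _ = C * (2 * k) * ((T : ℝ) ^ (k - 1) * (T : ℝ) ^ (1 - min e 1)) := by ring
    _ = C * (2 * k) * (T : ℝ) ^ ((k : ℝ) - min e 1) := by rw [h9]

end Run7.h469.TR.P1e27bd
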