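import Pool.Agent.Results.MP_1f047c_nt.TuplesPowerSaving
import Pool.Agent.Run7.h469.TR.Base

/-! Tuples of integers and singular matrices of logarithms: the property and the count. -/

set_option autoImplicit false

namespace Run7.h469.TR.P1f047c

open Module
open Run7.h469.Vk (Few)
open Pool.Agent.Results.MP_1f047c_nt.TuplesPowerSaving (Extends Exceptional Q1Holds)

/-- If all `|t_i| ≥ 2` then for ALL choices `l` of the logarithms of the numbers `|t_i| + θ_j` the property `Extends V l` is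
true: the `l` are `K`-linearly independent modulo `V`, and Q1 holds over `K` for the space `V + K l`. -/
def Good {K : IntermediateField ℚ ℂ} (V : Submodule K ℂ) {k r : ℕ} (θ : Fin r → ℂ) (t : Fin k → ℤ) : Prop :=
  (∀ i, 2 ≤ (t i).natAbs) → ∀ l : Fin k × Fin r → ℂ,
    (∀ p, Complex.exp (l p) = ((t p.1).natAbs : ℂ) + θ p.2) → Extends V l

theorem few {r : ℕ} (θ : Fin r → ℂ) (hθ : ∀ j, IsAlgebraic ℚ (θ j)) (hinj : Function.Injective θ) (k d m : ℕ) :
    ∃ c : ℝ, 0 < c ∧ c ≤ 1 ∧ ∃ C : ℝ, 0 ≤ C ∧ ∀ K : IntermediateField ℚ ℂ, FiniteDimensional ℚ K → finrank ℚ K ≤ d →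
      ∀ V : Submodule K ℂ, Module.Finite K V → finrank K V ≤ m → (finrank K V ≤ 1 ∨ Q1Holds V) →
        Few C ((k : ℝ) - c) {t : Fin k → ℤ | (∀ i, t i ≠ 0) ∧ ¬ Good V θ t} := by
  obtain ⟨c, hc, C, hC⟩ := Pool.Agent.Results.MP_1f047c_nt.TuplesPowerSaving.result θ hθ hinj k d m
  refine ⟨min c 1, lt_min hc one_pos, min_le_right _ _, |2 ^ k * C|, abs_nonneg _, fun K hK hKd V hV hVm hV0 => ?_⟩
  apply few_shrink
  apply few_of_nat (E := fun T => (Exceptional V θ T : Set (Fin k → ℕ)))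
  · intro T hT
    exact (hC K hK hKd V hV hVm hV0 T hT).1
  · intro T hT
    exact (hC K hK hKd V hV hVm hV0 T hT).2
  · rintro T hT t ⟨ht0, ht⟩ htT
    unfold Good at ht
    push Not at ht
    obtain ⟨h1, l, h2, h3⟩ := ht
    refine ⟨fun i => ⟨h1 i, ?_⟩, l, h2, h3⟩
    have := htT i
    show (t i).natAbs ≤ T
    rw [← Int.natCast_natAbs] at this
    exact_mod_cast this

end Run7.h469.TR.P1f047c
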