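import Pool.Agent.Results.MP_2ad15a_nt.BestApproximations
import Pool.Agent.Run7.h469.TR.Base

/-! Tuples of integers and the elliptic analogue of Schanuel's conjecture: the count. -/

set_option autoImplicit false

open scoped PeriodPair

namespace Run7.h469.TR.P2ad15a

open Run7.h469.Vk (Few few_of_ncard)
open Pool.Agent.Results.MP_2ad15a_nt.GrowingDegreeSubgroups (integers IsLogs InGroup Independent FreeOverPoints)
open Pool.Agent.Results.MP_2ad15a_nt.MultiplicativeValues (Good integers_card)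
open Pool.Agent.Results.MP_2ad15a_nt.BestApproximations (int_mem)

theorem few (Λ : PeriodPair) (a b : ℚ) (ha : Λ.g₂ = a) (hb : Λ.g₃ = b) (k r q : ℕ) (θ : Fin r → ℕ)
    (hθ : Function.Injective θ) :
    ∃ C : ℕ, ∀ (δ : ℕ) (w : Fin q → ℂ),
      Few C ((k : ℝ) - 1 / ((δ : ℝ) + 2) ^ C) {t : Fin k → ℤ | (∀ i, t i ≠ 0) ∧ ¬ Good Λ δ θ w fun i => (t i : ℂ)} := by
  obtain ⟨C, h⟩ := Pool.Agent.Results.MP_2ad15a_nt.GrowingDegreeSubgroups.result Λ a b ha hb 1 k r q le_rfl θ hθ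
  refine ⟨C * 3 ^ k, fun δ w => ?_⟩
  have h3 : C ≤ C * 3 ^ k := Nat.le_mul_of_pos_right _ (by positivity)
  have key : Few ((C : ℝ) * 3 ^ k) ((k : ℝ) - 1 / ((δ : ℝ) + 2) ^ C)
      {t : Fin k → ℤ | (∀ i, t i ≠ 0) ∧ ¬ Good Λ δ θ w fun i => (t i : ℂ)} := by
    refine few_of_ncard (fun X hX => ?_)
    obtain ⟨hf, hle⟩ := h δ w X hX
    have hX0 : (0 : ℝ) < X := by exact_mod_cast hX
    have hsub : (fun (v : Fin k → ℤ) (i : Fin k) => (v i : ℂ)) '' {v : Fin k → ℤ | (∀ i, |v i| ≤ (X : ℤ)) ∧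
        v ∈ {t : Fin k → ℤ | (∀ i, t i ≠ 0) ∧ ¬ Good Λ δ θ w fun i => (t i : ℂ)}} ⊆
        {α : Fin k → ℂ | (∀ i, α i ∈ integers 1 X) ∧ ¬ ∀ l : Fin k × Fin r → ℂ, IsLogs Λ θ α l →
          ∀ (n : ℕ) (p : Fin n → ℂ), InGroup Λ l p → Independent Λ p → FreeOverPoints Λ δ w p} := by
      rintro _ ⟨v, ⟨hv1, -, hv2⟩, rfl⟩
      exact ⟨fun i => int_mem X (v i) (hv1 i), hv2⟩
    have hinj : Function.Injective (fun (v : Fin k → ℤ) (i : Fin k) => (v i : ℂ)) := by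
      intro u v huv
      funext i
      exact Int.cast_injective (congrFun huv i)
    have hfin : {α : Fin k → ℂ | (∀ i, α i ∈ integers 1 X) ∧ ¬ ∀ l : Fin k × Fin r → ℂ, IsLogs Λ θ α l →
          ∀ (n : ℕ) (p : Fin n → ℂ), InGroup Λ l p → Independent Λ p → FreeOverPoints Λ δ w p}.Finite := by
      apply (Set.Finite.pi' fun _ : Fin k => hf).subset
      rintro α ⟨h1, _⟩
      exact h1
    have h2 := Set.ncard_le_ncard hsub hfin
    rw [Set.ncard_image_of_injective _ hinj] at h2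
    have h3 : ((integers 1 X).ncard : ℝ) ^ k ≤ (3 * (X : ℝ)) ^ k :=
      pow_le_pow_left₀ (Nat.cast_nonneg _) (integers_card X hX) k
    calc _ ≤ (({α : Fin k → ℂ | (∀ i, α i ∈ integers 1 X) ∧ ¬ ∀ l : Fin k × Fin r → ℂ, IsLogs Λ θ α l →
          ∀ (n : ℕ) (p : Fin n → ℂ), InGroup Λ l p → Independent Λ p → FreeOverPoints Λ δ w p}.ncard : ℕ) : ℝ) := by
            exact_mod_cast h2
      _ ≤ C * (X : ℝ) ^ (-(1 / ((δ : ℝ) + 2) ^ C)) * ((integers 1 X).ncard : ℝ) ^ k := hle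
      _ ≤ C * (X : ℝ) ^ (-(1 / ((δ : ℝ) + 2) ^ C)) * (3 * (X : ℝ)) ^ k :=
          mul_le_mul_of_nonneg_left h3 (by positivity)
      _ = C * 3 ^ k * (X : ℝ) ^ ((k : ℝ) - 1 / ((δ : ℝ) + 2) ^ C) := by
          rw [mul_pow, sub_eq_add_neg (k : ℝ), Real.rpow_add hX0, Real.rpow_natCast]
          ring
  apply Run7.h469.Vp.few_mono (by positivity) _ _ key
  · push_cast
    exact le_rfl
  · have := Run7.h469.Vp.sav_anti h3 δ
    unfold Run7.h469.Vp.sav at this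
    linarith

end Run7.h469.TR.P2ad15a
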