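import Pool.Agent.Results.MP_3cf473_nt.DirectionsNearAPoint
import Pool.Agent.Run7.h469.TR.Base

/-! Tuples of integers and measures of algebraic independence for their logarithms: the property and the count. -/

set_option autoImplicit false

namespace Run7.h469.TR.P3cf473

open Run7.h469.Vk (Few)
open Pool.Agent.Results.MP_3cf473_nt.AlmostAllTuples (Small box)
open Pool.Agent.Results.MP_3cf473_nt.DirectionsNearAPoint (HasMeasure size le_size size_le)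

/-- The measure of algebraic independence `|P (l)| ≥ 1 / (|t| H ^ C)` holds for all logarithms `l i` of the integers `|t i|`
(`|Im (l i)| ≤ H`), all nonzero integer polynomials `P` of degree at most `d` and height at most `H` and all
`2 ≤ H ≤ exp (exp (|t| ^ (1 / C)))`, where `|t|` is the largest `|t i|`; and for arbitrarily large `H` in `𝓗` the measure
`|P (l)| ≥ 1 / H ^ C` holds for all these `l` and `P`. -/
def Good (d C : ℕ) (𝓗 : Set ℝ) {k : ℕ} (t : Fin k → ℤ) : Prop :=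
  HasMeasure d C (fun i => (t i).natAbs) ∧ ∀ H₀ : ℝ, ∃ H ∈ 𝓗, H₀ ≤ H ∧ ¬ Small d H (1 / H ^ C) (fun i => (t i).natAbs)

theorem hasMeasure_mono {k d C C' : ℕ} (hC : 0 < C) (hCC : C ≤ C') {n : Fin k → ℕ} (hn : 1 ≤ size n)
    (h : HasMeasure d C n) : HasMeasure d C' n := by
  intro H hH1 hH2 l hl1 hl2 P hP1 hP2 hP3
  have hn1 : (1 : ℝ) ≤ size n := by exact_mod_cast hn
  have hC0 : (0 : ℝ) < C := by exact_mod_cast hC
  have hCC' : (C : ℝ) ≤ C' := by exact_mod_cast hCC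
  have h1 : (size n : ℝ) ^ (1 / (C' : ℝ)) ≤ (size n : ℝ) ^ (1 / (C : ℝ)) :=
    Real.rpow_le_rpow_of_exponent_le hn1 (one_div_le_one_div_of_le hC0 hCC')
  refine le_trans ?_ (h H hH1 (hH2.trans (Real.exp_le_exp.2 (Real.exp_le_exp.2 h1))) l hl1 hl2 P hP1 hP2 hP3)
  have hH : (1 : ℝ) ≤ H := by linarith
  apply one_div_le_one_div_of_le (by positivity)
  exact mul_le_mul_of_nonneg_left (pow_le_pow_right₀ hH hCC) (by positivity)

theorem small_mono {k d : ℕ} {H η η' : ℝ} {n : Fin k → ℕ} (h : Small d H η n) (hη : η ≤ η') : Small d H η' n := by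
  obtain ⟨l, h1, h2, P, h3, h4, h5, h6⟩ := h
  exact ⟨l, h1, h2, P, h3, h4, h5, lt_of_lt_of_le h6 hη⟩

theorem few (k d : ℕ) (hk : 1 ≤ k) : ∃ C : ℕ, 1 ≤ C ∧ ∃ K : ℝ, 0 ≤ K ∧ ∀ 𝓗 : Set ℝ, ¬ BddAbove 𝓗 →
    Few K ((k : ℝ) - 1 / C) {t : Fin k → ℤ | (∀ i, t i ≠ 0) ∧ ¬ Good d (C + 1) 𝓗 t} := by
  classical
  obtain ⟨m, rfl⟩ : ∃ m, k = m + 1 := ⟨k - 1, by omega⟩
  obtain ⟨C₁, hC₁, K, hK, h1⟩ := Pool.Agent.Results.MP_3cf473_nt.DirectionsNearAPoint.count m d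
  obtain ⟨C₂, hC₂, h2⟩ := Pool.Agent.Results.MP_3cf473_nt.AlmostAllTuples.result (m + 1) d
  have hCm1 : C₁ ≤ max C₁ C₂ := le_max_left _ _
  have hCm2 : C₂ ≤ max C₁ C₂ := le_max_right _ _
  refine ⟨max C₁ C₂, by omega, 2 ^ (m + 1) * (K + C₂), by positivity, fun 𝓗 h𝓗 => ?_⟩
  have hC1 : (0 : ℝ) < C₁ := by exact_mod_cast (by omega : 0 < C₁)
  have hC2 : (0 : ℝ) < C₂ := by exact_mod_cast hC₂
  have hr1 : 1 / ((max C₁ C₂ : ℕ) : ℝ) ≤ 1 / (C₁ : ℝ) := one_div_le_one_div_of_le hC1 (by exact_mod_cast hCm1)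
  have hr2 : 1 / ((max C₁ C₂ : ℕ) : ℝ) ≤ 1 / (C₂ : ℝ) := one_div_le_one_div_of_le hC2 (by exact_mod_cast hCm2)
  set F : ℕ → Finset (Fin (m + 1) → ℕ) := fun T => (box (m + 1) T).filter fun n => ∃ H₀ : ℝ, ∀ H ∈ 𝓗, H₀ ≤ H →
    Small d H (1 / H ^ C₂) n with hF
  set G : ℕ → Set (Fin (m + 1) → ℕ) := fun T => {n : Fin (m + 1) → ℕ | ((∀ i, 1 ≤ n i) ∧ ¬ HasMeasure d C₁ n) ∧
      max (1 : ℝ) (size n) ≤ T} with hG
  have hGf : ∀ T : ℕ, 1 ≤ T → (G T).Finite := fun T hT => (h1 T (by exact_mod_cast hT)).1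
  apply Run7.h469.TR.few_of_nat (E := fun T => G T ∪ (F T : Set (Fin (m + 1) → ℕ)))
  · intro T hT
    exact (hGf T hT).union (F T).finite_toSet
  · intro T hT
    have hT1 : (1 : ℝ) ≤ T := by exact_mod_cast hT
    have e1 : (((G T).ncard : ℕ) : ℝ) ≤ K * (T : ℝ) ^ (((m + 1 : ℕ) : ℝ) - 1 / ((max C₁ C₂ : ℕ) : ℝ)) := by
      refine (h1 T (by exact_mod_cast hT)).2.trans (mul_le_mul_of_nonneg_left ?_ hK)
      exact Real.rpow_le_rpow_of_exponent_le hT1 (by linarith)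
    have e2 : ((((F T : Set (Fin (m + 1) → ℕ))).ncard : ℕ) : ℝ) ≤
        C₂ * (T : ℝ) ^ (((m + 1 : ℕ) : ℝ) - 1 / ((max C₁ C₂ : ℕ) : ℝ)) := by
      rw [Set.ncard_coe_finset]
      obtain ⟨-, -, h3⟩ := h2 T hT
      refine (h3 𝓗 h𝓗).trans (mul_le_mul_of_nonneg_left ?_ hC2.le)
      exact Real.rpow_le_rpow_of_exponent_le hT1 (by linarith)
    have e3 : (G T ∪ (F T : Set (Fin (m + 1) → ℕ))).ncard ≤ (G T).ncard + (F T : Set (Fin (m + 1) → ℕ)).ncard :=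
      Set.ncard_union_le _ _
    have e4 : (((G T ∪ (F T : Set (Fin (m + 1) → ℕ))).ncard : ℕ) : ℝ) ≤
        (((G T).ncard : ℕ) : ℝ) + (((F T : Set (Fin (m + 1) → ℕ)).ncard : ℕ) : ℝ) := by exact_mod_cast e3
    calc _ ≤ _ := e4
      _ ≤ _ := add_le_add e1 e2
      _ = _ := by ring
  · rintro T hT t ⟨ht0, ht⟩ htT
    have hn1 : ∀ i, 1 ≤ (t i).natAbs := fun i => Int.natAbs_pos.2 (ht0 i)
    have hnT : ∀ i, (t i).natAbs ≤ T := by
      intro i
      have := htT i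
      rw [← Int.natCast_natAbs] at this
      exact_mod_cast this
    by_cases hm : HasMeasure d C₁ (fun i => (t i).natAbs)
    · right
      rw [Finset.mem_coe, hF, Finset.mem_filter]
      refine ⟨?_, ?_⟩
      · rw [box, Fintype.mem_piFinset]
        exact fun i => Finset.mem_Icc.2 ⟨hn1 i, hnT i⟩
      · have hsz : 1 ≤ size (fun i => (t i).natAbs) := (hn1 0).trans (le_size (fun i => (t i).natAbs) 0)
        have h3 : ¬ ∀ H₀ : ℝ, ∃ H ∈ 𝓗, H₀ ≤ H ∧ ¬ Small d H (1 / H ^ (max C₁ C₂ + 1)) (fun i => (t i).natAbs) := fun hh =>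
          ht ⟨hasMeasure_mono (by omega) (by omega) hsz hm, hh⟩
        push Not at h3
        obtain ⟨H₀, h3⟩ := h3
        refine ⟨max H₀ 1, fun H hH hH0 => small_mono (h3 H hH ((le_max_left _ _).trans hH0)) ?_⟩
        have hH1 : (1 : ℝ) ≤ H := (le_max_right _ _).trans hH0
        exact one_div_le_one_div_of_le (by positivity) (pow_le_pow_right₀ hH1 (by omega))
    · left
      refine ⟨⟨hn1, hm⟩, max_le (by exact_mod_cast hT) ?_⟩
      exact_mod_cast (size_le (n := fun i => (t i).natAbs)).2 hnT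

end Run7.h469.TR.P3cf473
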