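import Pool.Agent.Results.MP_47914d_nt.BestApproximations
import Pool.Agent.Run7.h469.TR.Base

/-! Tuples of integers and the modular Schanuel conjecture: the count. -/

set_option autoImplicit false

namespace Run7.h469.TR.P47914d

open Run7.h469.Vk (Few few_of_ncard)
open Pool.Agent.Results.MP_47914d_nt.BestApproximations (Good count)

theorem few (k q : ℕ) : ∃ C : ℕ, ∀ (δ : ℕ) (w : Fin q → ℂ),
    Few C ((k : ℝ) - 1 / ((δ : ℝ) + 2) ^ C) {t : Fin k → ℤ | (∀ i, t i ≠ 0) ∧ ¬ Good δ w t} := by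
  obtain ⟨C, hC⟩ := count k q
  refine ⟨C, fun δ w => few_of_ncard (fun T hT => ?_)⟩
  obtain ⟨-, h2⟩ := hC δ w T hT
  have e : {v : Fin k → ℤ | (∀ i, |v i| ≤ (T : ℤ)) ∧ v ∈ {t : Fin k → ℤ | (∀ i, t i ≠ 0) ∧ ¬ Good δ w t}} =
      {n : Fin k → ℤ | (∀ i, n i ≠ 0 ∧ |n i| ≤ (T : ℤ)) ∧ ¬ Good δ w n} := by
    ext v
    constructor
    · rintro ⟨h3, h4, h5⟩
      exact ⟨fun i => ⟨h4 i, h3 i⟩, h5⟩
    · rintro ⟨h3, h4⟩
      exact ⟨fun i => (h3 i).2, fun i => (h3 i).1, h4⟩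
  rw [e]
  exact h2

end Run7.h469.TR.P47914d
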