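import Pool.Agent.Results.MP_4aec10_nt.MultiplicativeValues
import Pool.Agent.Run7.h469.TR.Base

/-! Tuples of integers and translates in `Lie (E × G_m)^n`: the property and the count. -/

set_option autoImplicit false

open scoped PeriodPair

namespace Run7.h469.TR.P4aec10

open Run7.h469.Vk (Few few_of_ncard)
open Pool.Agent.Results.MP_4aec10_nt.SemiabelianTranslates (integers IsTranslate FreeOverImage)
open Pool.Agent.Results.MP_4aec10_nt.MultiplicativeValues (integers_one card_integers)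

/-- All translates of `(z, s)` by logarithms of the points `((t_i, y_i), t_i)` of `(E × G_m)^n` are free over their image and
`w`, for relations of degree at most `δ` over number fields of degree at most `d`. -/
def Good (Λ : PeriodPair) (δ d : ℕ) {n q : ℕ} (w : Fin q → ℂ) (z s : Fin n → ℂ) (t : Fin n → ℤ) : Prop :=
  ∀ u y : Fin n → ℂ, IsTranslate Λ z s (fun i => (t i : ℂ)) u y → FreeOverImage Λ δ d w u y

theorem few (Λ : PeriodPair) (a b : ℚ) (ha : Λ.g₂ = a) (hb : Λ.g₃ = b) (n q : ℕ) (δ d : ℕ) :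
    ∃ c : ℝ, 0 < c ∧ c ≤ 1 ∧ ∃ C : ℝ, 0 ≤ C ∧ ∀ (w : Fin q → ℂ) (z s : Fin n → ℂ),
      Few C ((n : ℝ) - c) {t : Fin n → ℤ | (∀ i, t i ≠ 0) ∧ ¬ Good Λ δ d w z s t} := by
  obtain ⟨c₀, hc₀, C, h⟩ := Pool.Agent.Results.MP_4aec10_nt.SemiabelianTranslates.result Λ a b ha hb n q 1 le_rfl δ d
  refine ⟨min c₀ 1, lt_min hc₀ one_pos, min_le_right _ _, abs (|C| * 3 ^ n), abs_nonneg _, fun w z s => ?_⟩
  apply few_shrink
  refine few_of_ncard (fun X hX => ?_)
  obtain ⟨hf, hle⟩ := h w z s X hX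
  have hX1 : (1 : ℝ) ≤ X := by exact_mod_cast hX
  have hX0 : (0 : ℝ) < X := by linarith
  have hsub : (fun (v : Fin n → ℤ) (i : Fin n) => (v i : ℂ)) '' {v : Fin n → ℤ | (∀ i, |v i| ≤ (X : ℤ)) ∧
      v ∈ {t : Fin n → ℤ | (∀ i, t i ≠ 0) ∧ ¬ Good Λ δ d w z s t}} ⊆
      {α : Fin n → ℂ | (∀ i, α i ∈ integers 1 X) ∧
        ¬ ∀ u t : Fin n → ℂ, IsTranslate Λ z s α u t → FreeOverImage Λ δ d w u t} := by
    rintro _ ⟨v, ⟨hv1, -, hv2⟩, rfl⟩
    exact ⟨fun i => integers_one (hv1 i), hv2⟩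
  have hinj : Function.Injective (fun (v : Fin n → ℤ) (i : Fin n) => (v i : ℂ)) := by
    intro u v huv
    funext i
    exact Int.cast_injective (congrFun huv i)
  have hfin : {α : Fin n → ℂ | (∀ i, α i ∈ integers 1 X) ∧
        ¬ ∀ u t : Fin n → ℂ, IsTranslate Λ z s α u t → FreeOverImage Λ δ d w u t}.Finite := by
    apply (Set.Finite.pi' fun _ : Fin n => hf).subset
    rintro α ⟨h1, _⟩
    exact h1
  have h2 := Set.ncard_le_ncard hsub hfin
  rw [Set.ncard_image_of_injective _ hinj] at h2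
  have h3 : ((integers 1 X).ncard : ℝ) ^ n ≤ (3 * (X : ℝ)) ^ n :=
    pow_le_pow_left₀ (Nat.cast_nonneg _) (card_integers X hX) n
  calc _ ≤ (({α : Fin n → ℂ | (∀ i, α i ∈ integers 1 X) ∧
        ¬ ∀ u t : Fin n → ℂ, IsTranslate Λ z s α u t → FreeOverImage Λ δ d w u t}.ncard : ℕ) : ℝ) := by
          exact_mod_cast h2
    _ ≤ C * (X : ℝ) ^ (-c₀) * ((integers 1 X).ncard : ℝ) ^ n := hle
    _ ≤ |C| * (X : ℝ) ^ (-c₀) * (3 * (X : ℝ)) ^ n := by
        apply mul_le_mul _ h3 (by positivity) (by positivity)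
        exact mul_le_mul_of_nonneg_right (le_abs_self C) (by positivity)
    _ = |C| * 3 ^ n * (X : ℝ) ^ ((n : ℝ) - c₀) := by
        rw [mul_pow, sub_eq_add_neg (n : ℝ), Real.rpow_add hX0, Real.rpow_natCast]
        ring

end Run7.h469.TR.P4aec10
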