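import Pool.Agent.Results.MP_8da9ea_nt.BestApproximations
import Pool.Agent.Run7.h469.TR.Base

/-! Tuples of integers and translates in `Lie (E^n × G_m^s)`: the property and the count. -/

set_option autoImplicit false

open scoped PeriodPair

namespace Run7.h469.TR.P8da9ea

open Run7.h469.Vk (Few few_of_ncard)
open Pool.Agent.Results.MP_8da9ea_nt.AlmostAllTranslates (IsTranslate FreeOverPoints)

/-- All translates `(p, y')` of `(z, y)` by logarithms of the point of `E^n × G_m^s` given by `t_1, …, t_(n+s)`, that is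
`℘(p_i - z_i) = t_i` and `exp(y'_l - y_l) = t_(n+l)`, are free over their points and `w`, for relations of degree at most `δ`
over number fields of degree at most `d`. -/
def Good (Λ : PeriodPair) (δ d : ℕ) {n s q : ℕ} (w : Fin q → ℂ) (z : Fin n → ℂ) (y : Fin s → ℂ)
    (t : Fin (n + s) → ℤ) : Prop :=
  ∀ (p : Fin n → ℂ) (y' : Fin s → ℂ), IsTranslate Λ z y (fun i => (t i : ℂ)) p y' → FreeOverPoints Λ δ d w p y'

theorem few (Λ : PeriodPair) (a b : ℚ) (ha : Λ.g₂ = a) (hb : Λ.g₃ = b) (n s q : ℕ) (δ d : ℕ) :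
    ∃ c : ℝ, 0 < c ∧ c ≤ 1 ∧ ∃ C : ℝ, 0 ≤ C ∧ ∀ (w : Fin q → ℂ) (z : Fin n → ℂ) (y : Fin s → ℂ),
      Few C (((n + s : ℕ) : ℝ) - c) {t : Fin (n + s) → ℤ | (∀ i, t i ≠ 0) ∧ ¬ Good Λ δ d w z y t} := by
  obtain ⟨c₁, hc₁, C, hC, h⟩ := Pool.Agent.Y916.Sch.tupP Λ a b ha hb n s q 1 δ d le_rfl
  have hMm : Pool.Agent.Y916.Sl.Mm 1 = 1 := by rw [Pool.Agent.Y916.Sl.Mm_eq]
  rw [hMm, mul_one] at h
  refine ⟨min c₁ 1, lt_min hc₁ one_pos, min_le_right _ _, |C|, abs_nonneg _, fun w z y => ?_⟩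
  apply few_shrink
  refine few_of_ncard (fun X hX => ?_)
  obtain ⟨hf, hle⟩ := h w z y X hX
  refine le_trans ?_ hle
  refine Nat.cast_le.2 (Set.ncard_le_ncard_of_injOn (fun (v : Fin (n + s) → ℤ) (i : Fin (n + s)) => (v i : ℂ)) ?_ ?_ hf)
  · rintro v ⟨hv1, -, hv2⟩
    refine ⟨fun i => ?_, ?_⟩
    · refine Pool.Agent.Results.MP_8da9ea_nt.BestApproximations.aint_int ?_
      have := hv1 i
      exact_mod_cast this
    · unfold Good at hv2
      push Not at hv2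
      obtain ⟨p, y', hu, hF'⟩ := hv2
      exact ⟨p, y', hu.1, hu.2, hF'⟩
  · intro u _ v _ huv
    funext i
    exact Int.cast_injective (congrFun huv i)

end Run7.h469.TR.P8da9ea
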