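import Pool.Agent.Results.MP_bbe012_lc.UniformDecisionProcedure
import Pool.Agent.Run7.h469.TR.Base

/-! Tuples of integers and one procedure which decides the equality of the polynomials in the periods: the property and the count. -/

set_option autoImplicit false

namespace Run7.h469.TR.Pbbe012

open Run7.h469.Vk (Few)
open Pool.Agent.Results.MP_57341d_ag.HypergeometricOrthogonal (Eqn)
open Pool.Agent.Results.MP_bbe012_lc.UniformDecisionProcedure (Coord periods value)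

/-- If all `|t_i| ≥ 2`, then `D` decides for the fibres at `1 / |t_i|` which combinations of the monomials with natural
coefficients have the same value. -/
def Decides {k r M : ℕ} {e : Fin k → Eqn} {q : Fin k → ℕ} (mon : Fin M → (Coord r e q →₀ ℕ)) (κ : Fin r → ℂ)
    (Ω : ∀ i, Matrix (Fin (e i).order ⊕ Fin (q i)) (Fin (e i).order ⊕ Fin (q i)) ℂ)
    (D : (Fin M → ℕ) × (Fin M → ℕ) → Bool) (t : Fin k → ℤ) : Prop :=
  (∀ i, 2 ≤ (t i).natAbs) → ∀ a b : Fin M → ℕ, D (a, b) = true ↔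
    value mon (periods κ Ω fun i => (t i).natAbs) a = value mon (periods κ Ω fun i => (t i).natAbs) b

theorem few (k : ℕ) (hk : 1 ≤ k) (e : Fin k → Eqn) (he : ∀ i, (e i).Admissible) (heven : ∀ i, (e i).odd = false)
    (q : Fin k → ℕ) (r M : ℕ) (mon : Fin M → (Coord r e q →₀ ℕ)) :
    ∃ c : ℝ, 0 < c ∧ c ≤ 1 ∧ ∃ C : ℝ, 0 ≤ C ∧ ∀ (κ : Fin r → ℂ)
      (Ω : ∀ i, Matrix (Fin (e i).order ⊕ Fin (q i)) (Fin (e i).order ⊕ Fin (q i)) ℂ),
      ∃ D : (Fin M → ℕ) × (Fin M → ℕ) → Bool, Primrec D ∧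
        Few C ((k : ℝ) - c) {t : Fin k → ℤ | (∀ i, t i ≠ 0) ∧ ¬ Decides mon κ Ω D t} := by
  obtain ⟨γ, C, hγ, h⟩ := Pool.Agent.Results.MP_bbe012_lc.UniformDecisionProcedure.result k e he heven q r M mon
  refine ⟨min γ 1, lt_min hγ one_pos, min_le_right _ _, 2 ^ k * (|C| * (2 * k)), by positivity, fun κ Ω => ?_⟩
  obtain ⟨D, hD, h1⟩ := h κ Ω
  refine ⟨D, hD, ?_⟩
  have hfin : ∀ T : ℕ, {t : Fin k → ℕ | (∀ i, 1 < t i ∧ t i ≤ 1 + T) ∧
      ¬ ∀ a b : Fin M → ℕ, D (a, b) = true ↔ value mon (periods κ Ω t) a = value mon (periods κ Ω t) b}.Finite := by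
    intro T
    apply (Set.Finite.pi' fun _ : Fin k => Set.finite_Icc 1 (1 + T)).subset
    rintro t ⟨h2, -⟩ i
    exact ⟨(h2 i).1.le, (h2 i).2⟩
  apply Run7.h469.TR.few_of_nat (E := fun T => {t : Fin k → ℕ | (∀ i, 1 < t i ∧ t i ≤ 1 + T) ∧
      ¬ ∀ a b : Fin M → ℕ, D (a, b) = true ↔ value mon (periods κ Ω t) a = value mon (periods κ Ω t) b})
  · intro T _
    exact hfin T
  · intro T hT
    have hT1 : (1 : ℝ) ≤ T := by exact_mod_cast hT
    have hT0 : (0 : ℝ) < T := by linarith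
    have h2 := h1 (fun _ => 1) T (fun _ => le_rfl) hT
    simp only [Nat.cast_one, Finset.sum_const, Finset.card_univ, Fintype.card_fin, nsmul_eq_mul] at h2
    refine h2.trans ?_
    have h5 : (1 : ℝ) + T / (1 + (T : ℝ)) ^ γ ≤ 2 * (T : ℝ) ^ (1 - min γ 1) := by
      have h6 : (T : ℝ) / (1 + (T : ℝ)) ^ γ ≤ (T : ℝ) ^ (1 - γ) := by
        rw [Real.rpow_sub hT0, Real.rpow_one]
        exact div_le_div_of_nonneg_left hT0.le (by positivity) (Real.rpow_le_rpow hT0.le (by linarith) hγ.le)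
      have h7 : (T : ℝ) ^ (1 - γ) ≤ (T : ℝ) ^ (1 - min γ 1) :=
        Real.rpow_le_rpow_of_exponent_le hT1 (by linarith [min_le_left γ 1])
      have h8 : (1 : ℝ) ≤ (T : ℝ) ^ (1 - min γ 1) :=
        Real.one_le_rpow hT1 (by linarith [min_le_right γ 1])
      linarith
    have h9 : (T : ℝ) ^ (k - 1) * (T : ℝ) ^ (1 - min γ 1) = (T : ℝ) ^ ((k : ℝ) - min γ 1) := by
      rw [← Real.rpow_natCast, ← Real.rpow_add hT0]
      congr 1
      rw [Nat.cast_sub hk]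
      push_cast
      ring
    calc C * (T : ℝ) ^ (k - 1) * ((k : ℝ) * (1 + T / (1 + (T : ℝ)) ^ γ))
        ≤ |C| * (T : ℝ) ^ (k - 1) * ((k : ℝ) * (1 + T / (1 + (T : ℝ)) ^ γ)) := by
          gcongr
          exact le_abs_self C
      _ ≤ |C| * (T : ℝ) ^ (k - 1) * ((k : ℝ) * (2 * (T : ℝ) ^ (1 - min γ 1))) := by gcongr
      _ = |C| * (2 * k) * ((T : ℝ) ^ (k - 1) * (T : ℝ) ^ (1 - min γ 1)) := by ring
      _ = |C| * (2 * k) * (T : ℝ) ^ ((k : ℝ) - min γ 1) := by rw [h9]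
  · rintro T hT t ⟨ht0, ht⟩ htT
    unfold Decides at ht
    push Not at ht
    obtain ⟨h2, h3⟩ := ht
    refine ⟨fun i => ⟨h2 i, ?_⟩, ?_⟩
    · have := htT i
      rw [← Int.natCast_natAbs] at this
      have h4 : (t i).natAbs ≤ T := by exact_mod_cast this
      show (t i).natAbs ≤ 1 + T
      omega
    · intro h4
      obtain ⟨a, b, h5⟩ := h3
      have h6 := h4 a b
      rcases h5 with ⟨h7, h8⟩ | ⟨h7, h8⟩
      · exact h8 (h6.1 h7)
      · exact h7 (h6.2 h8)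

end Run7.h469.TR.Pbbe012
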