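import Pool.Agent.Results.MP_c9768e_nt.BestApproximations
import Pool.Agent.Run7.h469.TR.Base

/-! Tuples of integers and elliptic logarithms, quasi-logarithms and logarithms: the count. -/

set_option autoImplicit false

namespace Run7.h469.TR.Pc9768e

open Run7.h469.Vk (Few few_of_ncard)
open Pool.Agent.Results.MP_c9768e_nt.BestApproximations (tuple)
open Pool.Agent.Results.MP_c9768e_nt.GrowingDegreeTuples (Related)

theorem few (L : PeriodPair) (a b : ℚ) (ha : L.g₂ = a) (hb : L.g₃ = b) {m r : ℕ} (ω : Fin (m + 1) → ℂ)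
    (hω : ∀ j, IsAlgebraic ℚ (ω j)) (hω0 : ω 0 = 1) (θ : Fin r → ℕ) (hθ : Function.Injective θ) (k Q : ℕ) :
    ∃ C : ℕ, ∀ (δ : ℕ) (w : Fin Q → ℂ),
      Few C (((k * (m + 1) : ℕ) : ℝ) - 1 / ((δ : ℝ) + 2) ^ C)
        {t : Fin (k * (m + 1)) → ℤ | (∀ i, t i ≠ 0) ∧ ¬ ¬ Related L δ w ω θ (tuple (m := m) t)} := by
  obtain ⟨C, hC⟩ := Pool.Agent.Results.MP_c9768e_nt.GrowingDegreeTuples.result L a b ha hb ω hω hω0 θ hθ k Q
  refine ⟨C, fun δ w => few_of_ncard (fun X hX => ?_)⟩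
  obtain ⟨hf, hle⟩ := hC δ w X hX
  refine le_trans ?_ hle
  have hsub : tuple (m := m) '' {v : Fin (k * (m + 1)) → ℤ | (∀ t, |v t| ≤ (X : ℤ)) ∧
      v ∈ {t : Fin (k * (m + 1)) → ℤ | (∀ i, t i ≠ 0) ∧ ¬ ¬ Related L δ w ω θ (tuple (m := m) t)}} ⊆
      {n : Fin k → Fin (m + 1) → ℤ | (∀ i l, |n i l| ≤ X) ∧ Related L δ w ω θ n} := by
    rintro _ ⟨v, ⟨hv1, -, hv2⟩, rfl⟩
    exact ⟨fun i l => hv1 _, not_not.1 hv2⟩
  have hinj : Function.Injective (tuple (k := k) (m := m)) := by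
    intro u v huv
    funext t
    have := congrFun (congrFun huv (finProdFinEquiv.symm t).1) (finProdFinEquiv.symm t).2
    simpa only [tuple, Prod.mk.eta, Equiv.apply_symm_apply] using this
  have h2 := Set.ncard_le_ncard hsub hf
  rw [Set.ncard_image_of_injective _ hinj] at h2
  exact_mod_cast h2

end Run7.h469.TR.Pc9768e
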