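import Pool.Agent.Results.MP_dd0d16_nt.TuplesPowerSaving
import Pool.Agent.Run7.h469.TR.Base

/-! Tuples of integers and the `p`-adic strong four exponentials conjecture: the count. -/

set_option autoImplicit false

namespace Run7.h469.TR.Pdd0d16

open Module
open Run7.h469.Vk (Few)
open Pool.Agent.Results.MP_dd0d16_nt.TuplesPowerSaving (IsIwasawaLog StrongFour)

theorem few (k d m : ℕ) : ∃ c : ℝ, 0 < c ∧ c ≤ 1 ∧ ∀ (p : ℕ) [Fact p.Prime], ∃ C : ℝ, 0 ≤ C ∧
    ∀ L : PadicAlgCl p → PadicAlgCl p, IsIwasawaLog p L →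
    ∀ K : IntermediateField ℚ (PadicAlgCl p), FiniteDimensional ℚ K → finrank ℚ K ≤ d →
    ∀ V : Submodule K (PadicAlgCl p), Module.Finite K V → finrank K V ≤ m →
      Few C ((k : ℝ) - c) {t : Fin k → ℤ | (∀ i, t i ≠ 0) ∧
        ¬ StrongFour V (fun i => L (((t i).natAbs : ℕ) : PadicAlgCl p))} := by
  obtain ⟨c, hc, C, h⟩ := Pool.Agent.Results.MP_dd0d16_nt.TuplesPowerSaving.result k d m
  refine ⟨min c 1, lt_min hc one_pos, min_le_right _ _, fun p _ => ⟨|2 ^ k * (C * p)|, abs_nonneg _,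
    fun L hL K hK hKd V hV hVm => ?_⟩⟩
  apply Run7.h469.TR.few_shrink
  choose B hB hgood using h p L hL K hK hKd V hV hVm
  apply Run7.h469.TR.few_of_nat (E := fun T => if hT : 1 ≤ T then (B T hT : Set (Fin k → ℕ)) else ∅)
  · intro T hT
    simp only [hT, dif_pos]
    exact (B T hT).finite_toSet
  · intro T hT
    simp only [hT, dif_pos]
    rw [Set.ncard_coe_finset]
    exact hB T hT
  · rintro T hT t ⟨ht0, ht⟩ htT
    simp only [hT, dif_pos]
    by_contra hcon
    refine ht (hgood T hT (fun i => (t i).natAbs) (fun i => ⟨Int.natAbs_pos.2 (ht0 i), ?_⟩) hcon)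
    have := htT i
    rw [← Int.natCast_natAbs] at this
    exact_mod_cast this

end Run7.h469.TR.Pdd0d16
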