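import Pool.Agent.Results.MP_ede373_nt.GrowingDegreeTuples
import Pool.Agent.Run7.h469.TR.Base

/-! Tuples of integers and the modular Schanuel conjecture with derivatives: the count. -/

set_option autoImplicit false

namespace Run7.h469.TR.Pede373

open Run7.h469.Vk (Few few_of_ncard)
open Pool.Agent.Results.MP_ede373_nt.GrowingDegreeTuples (Exceptional)

theorem few (k q : ℕ) : ∃ C : ℕ, ∀ (δ : ℕ) (w : Fin q → ℂ),
    Few C ((k : ℝ) - 1 / ((δ : ℝ) + 2) ^ C) {t : Fin k → ℤ | (∀ i, t i ≠ 0) ∧ ¬ ¬ Exceptional δ w t} := by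
  classical
  obtain ⟨C, hC⟩ := Pool.Agent.Results.MP_ede373_nt.GrowingDegreeTuples.result k q
  refine ⟨C, fun δ w => few_of_ncard (fun T hT => le_trans ?_ (hC δ w T hT))⟩
  have hsub : {v : Fin k → ℤ | (∀ i, |v i| ≤ (T : ℤ)) ∧
      v ∈ {t : Fin k → ℤ | (∀ i, t i ≠ 0) ∧ ¬ ¬ Exceptional δ w t}} ⊆
      (((Fintype.piFinset fun _ : Fin k => Finset.Icc (-(T : ℤ)) T).filter fun n =>
        (∀ i, n i ≠ 0) ∧ Exceptional δ w n : Finset (Fin k → ℤ)) : Set (Fin k → ℤ)) := by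
    rintro v ⟨h1, h2, h3⟩
    rw [Finset.mem_coe, Finset.mem_filter, Fintype.mem_piFinset]
    exact ⟨fun i => Finset.mem_Icc.2 (abs_le.1 (h1 i)), h2, not_not.1 h3⟩
  have h1 := Set.ncard_le_ncard hsub (Finset.finite_toSet _)
  rw [Set.ncard_coe_finset] at h1
  exact_mod_cast h1

end Run7.h469.TR.Pede373
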