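import Pool.Agent.Results.MP_f58a57_nt.MultiplicativeValues
import Pool.Agent.Run7.h469.TR.Base

/-! Tuples of integers and the modular Schanuel conjecture with derivatives and special points: the count. -/

set_option autoImplicit false

namespace Run7.h469.TR.Pf58a57

open Run7.h469.Vk (Few few_of_ncard)
open Pool.Agent.Results.MP_f58a57_nt.AlgebraicInvariants (Exceptional Z)
open Pool.Agent.Results.MP_f58a57_nt.MultiplicativeValues (int_mem_Z Z_one_card)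

theorem few (q k d δ : ℕ) :
    ∃ c : ℝ, 0 < c ∧ c ≤ 1 ∧ ∃ C : ℝ, 0 ≤ C ∧ ∀ w : Fin q → ℂ,
      Few C ((k : ℝ) - c) {t : Fin k → ℤ | (∀ i, t i ≠ 0) ∧ ¬ ¬ Exceptional δ d w (fun i => (t i : ℂ))} := by
  obtain ⟨c, hc, C, hC, h⟩ := Pool.Agent.Results.MP_f58a57_nt.AlgebraicInvariants.result q k 1 d δ le_rfl
  refine ⟨min c 1, lt_min hc one_pos, min_le_right _ _, |C * 3 ^ k|, abs_nonneg _, fun w => ?_⟩
  apply few_shrink
  refine few_of_ncard (fun T hT => ?_)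
  obtain ⟨hfin, h2⟩ := h w T hT
  have hT1 : (1 : ℝ) ≤ T := by exact_mod_cast hT
  have hT0 : (0 : ℝ) < T := by linarith
  have hfin2 : {α : Fin k → ℂ | (∀ i, α i ∈ Z 1 T) ∧ Exceptional δ d w α}.Finite :=
    (Set.Finite.pi' fun _ : Fin k => hfin).subset fun α hα => hα.1
  have h3 : {v : Fin k → ℤ | (∀ i, |v i| ≤ (T : ℤ)) ∧
      v ∈ {t : Fin k → ℤ | (∀ i, t i ≠ 0) ∧ ¬ ¬ Exceptional δ d w (fun i => (t i : ℂ))}}.ncard ≤
      {α : Fin k → ℂ | (∀ i, α i ∈ Z 1 T) ∧ Exceptional δ d w α}.ncard := by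
    refine Set.ncard_le_ncard_of_injOn (fun α i => ((α i : ℤ) : ℂ)) ?_ ?_ hfin2
    · rintro α ⟨h4, -, h5⟩
      exact ⟨fun i => int_mem_Z (h4 i), not_not.1 h5⟩
    · intro α _ β _ hαβ
      funext i
      have h6 : ((α i : ℤ) : ℂ) = ((β i : ℤ) : ℂ) := congrFun hαβ i
      exact_mod_cast h6
  have h4 : ((Z 1 T).ncard : ℝ) ≤ 3 * T := by
    have h5 : (((Z 1 T).ncard : ℕ) : ℝ) ≤ ((2 * T + 1 : ℕ) : ℝ) := by exact_mod_cast Z_one_card T
    push_cast at h5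
    linarith
  calc _ ≤ (({α : Fin k → ℂ | (∀ i, α i ∈ Z 1 T) ∧ Exceptional δ d w α}.ncard : ℕ) : ℝ) := by exact_mod_cast h3
    _ ≤ C * (T : ℝ) ^ (-c) * ((Z 1 T).ncard : ℝ) ^ k := h2
    _ ≤ C * (T : ℝ) ^ (-c) * (3 * T) ^ k :=
        mul_le_mul_of_nonneg_left (pow_le_pow_left₀ (Nat.cast_nonneg _) h4 k) (by positivity)
    _ = C * 3 ^ k * (T : ℝ) ^ ((k : ℝ) - c) := by
        rw [mul_pow, sub_eq_neg_add, Real.rpow_add hT0, Real.rpow_natCast]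
        ring

end Run7.h469.TR.Pf58a57
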